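import Mathlib

set_option autoImplicit false

namespace Pool.Agent.Lib.P22c7c2

open Filter

/-- The underlying set: functions `ℕ → ℕ∞` which are infinite exactly on a finite initial
segment. -/
@[ext]
structure Xh where
  /-- the function -/
  val : ℕ → ℕ∞
  /-- the condition -/
  fin : ∃ k : ℕ, ∀ i, val i = ⊤ ↔ i < k

/-- The length of the initial segment. -/
noncomputable def lev (x : Xh) : ℕ := x.fin.choose

theorem lev_spec (x : Xh) : ∀ i, x.1 i = ⊤ ↔ i < lev x := x.fin.choose_spec

theorem lev_eq {x : Xh} {k : ℕ} (h : ∀ i, x.1 i = ⊤ ↔ i < k) : lev x = k := by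
  have h1 := lev_spec x
  apply le_antisymm
  · by_contra hlt
    push Not at hlt
    exact absurd ((h k).1 ((h1 k).2 hlt)) (lt_irrefl k)
  · by_contra hlt
    push Not at hlt
    exact absurd ((h1 (lev x)).1 ((h (lev x)).2 hlt)) (lt_irrefl _)

/-- The operation: pointwise maximum. -/
noncomputable def mulX (x y : Xh) : Xh :=
  ⟨fun i => max (x.1 i) (y.1 i), by
    obtain ⟨k, hk⟩ := x.2
    obtain ⟨l, hl⟩ := y.2
    refine ⟨max k l, fun i => ?_⟩
    rw [lt_max_iff, ← hk, ← hl]
    show max (x.1 i) (y.1 i) = ⊤ ↔ _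
    constructor
    · intro h
      rcases le_total (x.1 i) (y.1 i) with h' | h'
      · right; rwa [max_eq_right h'] at h
      · left; rwa [max_eq_left h'] at h
    · rintro (h | h)
      · rw [h]; exact top_sup_eq _
      · rw [h]; exact sup_top_eq _⟩

noncomputable instance : CommSemigroup Xh where
  mul := mulX
  mul_assoc _ _ _ := Xh.ext (funext fun _ => max_assoc _ _ _)
  mul_comm _ _ := Xh.ext (funext fun _ => max_comm _ _)

theorem mul_val (x y : Xh) (i : ℕ) : (x * y).1 i = max (x.1 i) (y.1 i) := rfl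

theorem mul_self (x : Xh) : x * x = x := Xh.ext (funext fun _ => max_self _)

theorem lev_mul (x y : Xh) : lev (x * y) = max (lev x) (lev y) := by
  apply lev_eq
  intro i
  rw [mul_val, lt_max_iff, ← lev_spec, ← lev_spec]
  constructor
  · intro h
    rcases le_total (x.1 i) (y.1 i) with h' | h'
    · right; rwa [max_eq_right h'] at h
    · left; rwa [max_eq_left h'] at h
  · rintro (h | h)
    · rw [h]; exact top_sup_eq _
    · rw [h]; exact sup_top_eq _

/-- Basic neighbourhoods. -/
def N (x : Xh) (J n : ℕ) : Set Xh :=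
  {z | (∀ i, i + 1 = lev x → (J : ℕ∞) ≤ z.1 i) ∧ ∀ i, lev x ≤ i → i < n → z.1 i = x.1 i}

theorem N_anti (x : Xh) {J J' n n' : ℕ} (hJ : J ≤ J') (hn : n ≤ n') : N x J' n' ⊆ N x J n := by
  rintro z ⟨h1, h2⟩
  exact ⟨fun i hi => le_trans (by exact_mod_cast hJ) (h1 i hi),
    fun i hi hi' => h2 i hi (lt_of_lt_of_le hi' hn)⟩

theorem mem_N_self (x : Xh) (J n : ℕ) : x ∈ N x J n := by
  refine ⟨fun i hi => ?_, fun i _ _ => rfl⟩
  rw [(lev_spec x i).2 (by omega)]
  exact le_top

instance : TopologicalSpace Xh where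
  IsOpen U := ∀ x ∈ U, ∃ J n, N x J n ⊆ U
  isOpen_univ := fun _ _ => ⟨0, 0, Set.subset_univ _⟩
  isOpen_inter := by
    intro U V hU hV x hx
    obtain ⟨J, n, h⟩ := hU x hx.1
    obtain ⟨J', n', h'⟩ := hV x hx.2
    exact ⟨max J J', max n n', fun z hz =>
      ⟨h (N_anti x (le_max_left _ _) (le_max_left _ _) hz),
        h' (N_anti x (le_max_right _ _) (le_max_right _ _) hz)⟩⟩
  isOpen_sUnion := by
    intro S hS x hx
    obtain ⟨U, hU, hxU⟩ := hx
    obtain ⟨J, n, h⟩ := hS U hU x hxU
    exact ⟨J, n, fun z hz => ⟨U, hU, h hz⟩⟩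

theorem isOpen_iff (U : Set Xh) : IsOpen U ↔ ∀ x ∈ U, ∃ J n, N x J n ⊆ U := Iff.rfl

theorem isOpen_N (x : Xh) (J n : ℕ) (hn : lev x < n) : IsOpen (N x J n) := by
  rw [isOpen_iff]
  rintro z ⟨h1, h2⟩
  have hlev : lev z ≤ lev x := by
    by_contra hlt
    push Not at hlt
    have e1 : z.1 (lev x) = ⊤ := (lev_spec z _).2 hlt
    have e2 := h2 (lev x) le_rfl hn
    rw [e1] at e2
    exact absurd ((lev_spec x _).1 e2.symm) (lt_irrefl _)
  rcases hlev.lt_or_eq with hlt | heq
  · refine ⟨0, n, ?_⟩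
    rintro w ⟨_, k2⟩
    refine ⟨fun i hi => ?_, fun i hi hi' => ?_⟩
    · rw [k2 i (by omega) (by omega)]
      exact h1 i hi
    · rw [k2 i (by omega) hi', h2 i hi hi']
  · refine ⟨J, n, ?_⟩
    rintro w ⟨k1, k2⟩
    refine ⟨fun i hi => k1 i (by omega), fun i hi hi' => ?_⟩
    rw [k2 i (by omega) hi', h2 i hi hi']

theorem N_mem_nhds (x : Xh) (J n : ℕ) : N x J n ∈ nhds x := by
  refine mem_of_superset ((isOpen_N x J (max n (lev x + 1)) ?_).mem_nhds (mem_N_self _ _ _)) ?_
  · exact lt_of_lt_of_le (Nat.lt_succ_self _) (le_max_right _ _)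
  · exact N_anti x le_rfl (le_max_left _ _)

theorem mem_nhds_iff' (x : Xh) (U : Set Xh) : U ∈ nhds x ↔ ∃ J n, N x J n ⊆ U := by
  constructor
  · intro h
    obtain ⟨V, hVU, hV, hxV⟩ := mem_nhds_iff.1 h
    obtain ⟨J, n, h'⟩ := (isOpen_iff V).1 hV x hxV
    exact ⟨J, n, h'.trans hVU⟩
  · rintro ⟨J, n, h⟩
    exact mem_of_superset (N_mem_nhds x J n) h

theorem sep_of_lt {x y : Xh} (h : lev x < lev y) : Disjoint (nhds x) (nhds y) := by
  -- the coordinate `lev y - 1`
  have hi : lev x ≤ lev y - 1 := by omega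
  have hne : x.1 (lev y - 1) ≠ ⊤ := fun e => by
    have := (lev_spec x _).1 e
    omega
  obtain ⟨v, hv⟩ := ENat.ne_top_iff_exists.1 hne
  rw [Filter.disjoint_iff]
  refine ⟨N x 0 (lev y), N_mem_nhds _ _ _, N y (v + 1) 0, N_mem_nhds _ _ _, ?_⟩
  rw [Set.disjoint_left]
  rintro z ⟨_, h2⟩ ⟨h3, _⟩
  have e1 := h2 (lev y - 1) hi (by omega)
  have e2 := h3 (lev y - 1) (by omega)
  rw [e1, ← hv] at e2
  have : v + 1 ≤ v := by exact_mod_cast e2
  omega

instance : T2Space Xh := by
  rw [t2Space_iff_disjoint_nhds]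
  intro x y hxy
  rcases lt_trichotomy (lev x) (lev y) with h | h | h
  · exact sep_of_lt h
  · obtain ⟨i, hi⟩ : ∃ i, x.1 i ≠ y.1 i := by
      by_contra hcon
      push Not at hcon
      exact hxy (Xh.ext (funext hcon))
    have hi' : lev x ≤ i := by
      by_contra hlt
      push Not at hlt
      apply hi
      rw [(lev_spec x i).2 hlt, (lev_spec y i).2 (h ▸ hlt)]
    rw [Filter.disjoint_iff]
    refine ⟨N x 0 (i + 1), N_mem_nhds _ _ _, N y 0 (i + 1), N_mem_nhds _ _ _, ?_⟩
    rw [Set.disjoint_left]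
    rintro z ⟨_, h2⟩ ⟨_, h3⟩
    apply hi
    rw [← h2 i hi' (Nat.lt_succ_self _), ← h3 i (h ▸ hi') (Nat.lt_succ_self _)]
  · exact (sep_of_lt h).symm

instance : ContinuousMul Xh := by
  refine ⟨continuous_iff_continuousAt.2 ?_⟩
  rintro ⟨x, y⟩
  intro U hU
  rw [mem_nhds_iff'] at hU
  obtain ⟨J, n, hU⟩ := hU
  rw [Filter.mem_map, nhds_prod_eq]
  refine mem_of_superset (prod_mem_prod (N_mem_nhds x J n) (N_mem_nhds y J n)) ?_
  rintro ⟨z, w⟩ ⟨⟨hz1, hz2⟩, ⟨hw1, hw2⟩⟩
  apply hU
  have hl := lev_mul x y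
  refine ⟨fun i hi => ?_, fun i hi hi' => ?_⟩
  · simp only at hi hl ⊢
    rw [mul_val]
    rcases le_total (lev x) (lev y) with h | h
    · rw [hl, max_eq_right h] at hi
      exact le_trans (hw1 i hi) (le_max_right _ _)
    · rw [hl, max_eq_left h] at hi
      exact le_trans (hz1 i hi) (le_max_left _ _)
  · simp only at hi hl ⊢
    rw [mul_val, mul_val]
    rw [hl] at hi
    rw [hz2 i (le_trans (le_max_left _ _) hi) hi', hw2 i (le_trans (le_max_right _ _) hi) hi']

/-- The chain. -/
def c (k : ℕ) : Xh := ⟨fun i => if i < k then ⊤ else 0, k, fun i => by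
  by_cases h : i < k <;> simp [h]⟩

theorem c_val (k i : ℕ) : (c k).1 i = if i < k then ⊤ else 0 := rfl

theorem lev_c (k : ℕ) : lev (c k) = k := lev_eq fun i => by
  by_cases h : i < k <;> simp [c_val, h]

/-- A single finite bump. -/
def g (i J : ℕ) : Xh := ⟨fun m => if m = i then (J : ℕ∞) else 0, 0, fun m => by
  by_cases h : m = i <;> simp [h]⟩

theorem g_val (i J m : ℕ) : (g i J).1 m = if m = i then (J : ℕ∞) else 0 := rfl

theorem tendsto_g (i : ℕ) : Tendsto (g i) atTop (nhds (c (i + 1))) := by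
  intro U hU
  rw [mem_nhds_iff'] at hU
  obtain ⟨J, n, hU⟩ := hU
  rw [Filter.mem_map]
  filter_upwards [eventually_ge_atTop J] with J' hJ'
  apply hU
  refine ⟨fun m hm => ?_, fun m hm hm' => ?_⟩
  · rw [lev_c] at hm
    have : m = i := by omega
    rw [g_val, if_pos this]
    exact_mod_cast hJ'
  · rw [lev_c] at hm
    rw [g_val, c_val, if_neg (by omega), if_neg (by omega)]

theorem g_mul {i J : ℕ} {z : Xh} (h : (J : ℕ∞) ≤ z.1 i) : g i J * z = z := by
  apply Xh.ext
  funext m
  rw [mul_val, g_val]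
  split_ifs with hm
  · rw [hm]; exact max_eq_right h
  · exact max_eq_right bot_le

/-- The main theorem: images of `Xh` are closed. -/
theorem isClosed_range {Y : Type*} [TopologicalSpace Y] [T2Space Y] [Semigroup Y]
    [ContinuousMul Y] (h : Xh →ₙ* Y) (hc : Continuous h) : IsClosed (Set.range h) := by
  rw [← closure_subset_iff_isClosed]
  intro y hy
  have hne : (comap h (nhds y)).NeBot := by
    rw [comap_neBot_iff]
    intro V hV
    obtain ⟨_, hz, z, rfl⟩ := mem_closure_iff_nhds.1 hy V hV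
    exact ⟨z, hz⟩
  set 𝒰 : Ultrafilter Xh := @Ultrafilter.of _ (comap h (nhds y)) hne with h𝒰
  have hlim : Tendsto h (𝒰 : Filter Xh) (nhds y) := by
    have : (𝒰 : Filter Xh) ≤ comap h (nhds y) := Ultrafilter.of_le _
    exact tendsto_iff_comap.2 this
  -- finite or infinite coordinates
  let Inf : ℕ → Prop := fun i => ∀ J : ℕ, ∀ᶠ z in (𝒰 : Filter Xh), (J : ℕ∞) ≤ z.1 i
  have hfin : ∀ i, ¬ Inf i → ∃ v : ℕ, ∀ᶠ z in (𝒰 : Filter Xh), z.1 i = (v : ℕ∞) := by
    intro i hi
    by_contra hcon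
    push Not at hcon
    apply hi
    intro J
    induction J with
    | zero => exact Eventually.of_forall fun z => by simp
    | succ J ih =>
      have h1 : ∀ᶠ z in (𝒰 : Filter Xh), z.1 i ≠ (J : ℕ∞) :=
        hcon J
      filter_upwards [ih, h1] with z hz1 hz2
      have h2 : (J : ℕ∞) < z.1 i := lt_of_le_of_ne hz1 (Ne.symm hz2)
      have := Order.add_one_le_of_lt h2
      exact_mod_cast this
  by_cases hcase : ∃ k, ∀ i, k ≤ i → ¬ Inf i
  · -- the net converges
    classical
    set k := Nat.find hcase with hk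
    have hk1 : ∀ i, k ≤ i → ¬ Inf i := Nat.find_spec hcase
    have hk2 : ∀ i, i + 1 = k → Inf i := by
      intro i hi
      have h1 : ¬ ∀ j, i ≤ j → ¬ Inf j := Nat.find_min hcase (by omega)
      push Not at h1
      obtain ⟨j, hj, hj'⟩ := h1
      rcases hj.lt_or_eq with hlt | heq
      · exact absurd hj' (hk1 j (by omega))
      · rwa [heq]
    choose! v hv using fun i (hi : k ≤ i) => hfin i (hk1 i hi)
    let x : Xh := ⟨fun i => if i < k then ⊤ else (v i : ℕ∞), k, fun i => by
      by_cases h : i < k <;> simp [h]⟩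
    have hxv : ∀ i, x.1 i = if i < k then ⊤ else (v i : ℕ∞) := fun i => rfl
    have hlx : lev x = k := lev_eq fun i => by
      by_cases h : i < k <;> simp [hxv, h]
    have hconv : (𝒰 : Filter Xh) ≤ nhds x := by
      intro U hU
      rw [mem_nhds_iff'] at hU
      obtain ⟨J, n, hU⟩ := hU
      refine mem_of_superset ?_ hU
      have h1 : ∀ᶠ z in (𝒰 : Filter Xh), ∀ i, i + 1 = lev x → (J : ℕ∞) ≤ z.1 i := by
        rcases Nat.eq_zero_or_pos k with h0 | hpos
        · exact Eventually.of_forall fun z i hi => by omega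
        · filter_upwards [hk2 (k - 1) (by omega) J] with z hz i hi
          have : i = k - 1 := by omega
          rwa [this]
      have h2 : ∀ᶠ z in (𝒰 : Filter Xh), ∀ i, i < n → lev x ≤ i → z.1 i = x.1 i := by
        have : ∀ᶠ z in (𝒰 : Filter Xh), ∀ i ∈ Set.Iio n, lev x ≤ i → z.1 i = x.1 i := by
          rw [eventually_all_finite (Set.finite_Iio n)]
          intro i _
          by_cases hi : k ≤ i
          · filter_upwards [hv i hi] with z hz _
            rw [hz, hxv, if_neg (by omega)]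
          · exact Eventually.of_forall fun z h => by omega
        exact this
      filter_upwards [h1, h2] with z hz1 hz2
      exact ⟨hz1, fun i hi hi' => hz2 i hi' hi⟩
    have hlim2 : Tendsto h (𝒰 : Filter Xh) (nhds (h x)) :=
      (hc.tendsto x).mono_left hconv
    exact ⟨x, tendsto_nhds_unique hlim2 hlim⟩
  · -- infinitely many infinite coordinates
    push Not at hcase
    have habs : ∀ i, Inf i → h (c (i + 1)) * y = y := by
      intro i hi
      have h1 : ∀ J : ℕ, h (g i J) * y = y := by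
        intro J
        have t1 : Tendsto (fun z => h (g i J) * h z) (𝒰 : Filter Xh) (nhds (h (g i J) * y)) :=
          tendsto_const_nhds.mul hlim
        have t2 : Tendsto (fun z => h (g i J) * h z) (𝒰 : Filter Xh) (nhds y) := by
          refine hlim.congr' ?_
          filter_upwards [hi J] with z hz
          rw [← map_mul, g_mul hz]
        exact tendsto_nhds_unique t1 t2
      have t3 : Tendsto (fun J : ℕ => h (g i J) * y) atTop (nhds (h (c (i + 1)) * y)) :=
        ((hc.tendsto _).comp (tendsto_g i)).mul tendsto_const_nhds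
      have t4 : Tendsto (fun J : ℕ => h (g i J) * y) atTop (nhds y) := by
        simp only [h1]
        exact tendsto_const_nhds
      exact tendsto_nhds_unique t3 t4
    refine ⟨c 0, ?_⟩
    by_contra hne'
    obtain ⟨O₁, O, hO₁, hO, h1, h2, hdis⟩ := t2_separation hne'
    obtain ⟨J₀, n₀, hn₀⟩ := (mem_nhds_iff' (c 0) (h ⁻¹' O₁)).1
      ((hO₁.preimage hc).mem_nhds h1)
    obtain ⟨i, hi, hinf⟩ := hcase n₀
    -- continuity of the multiplication by `c (i+1)`
    have hcont : Tendsto (fun z => h (c (i + 1)) * h z) (𝒰 : Filter Xh)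
        (nhds (h (c (i + 1)) * y)) := tendsto_const_nhds.mul hlim
    rw [habs i hinf] at hcont
    obtain ⟨z, hz⟩ := (hcont.eventually (hO.mem_nhds h2)).exists
    rw [← map_mul] at hz
    obtain ⟨J, n, hJn⟩ := (mem_nhds_iff' (c (i + 1) * z) (h ⁻¹' O)).1
      ((hO.preimage hc).mem_nhds hz)
    set m := lev (c (i + 1) * z) with hm
    have hmi : i + 1 ≤ m := by
      rw [hm, lev_mul, lev_c]
      exact le_max_left _ _
    let w : Xh := ⟨fun j => if j < m - 1 then 0 else if j = m - 1 then (J : ℕ∞) else z.1 j, 0,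
      fun j => by
        have hzj : ¬ j < m → z.1 j ≠ ⊤ := by
          intro hj e
          have := (lev_spec z j).1 e
          rw [hm, lev_mul, lt_max_iff] at hj
          exact hj (Or.inr this)
        by_cases h1 : j < m - 1
        · simp [h1]
        · by_cases h2 : j = m - 1
          · simp [h2]
          · simp only [h1, h2, if_false, Nat.not_lt_zero, iff_false]
            exact hzj (by omega)⟩
    have hwv : ∀ j, w.1 j = if j < m - 1 then 0 else if j = m - 1 then (J : ℕ∞) else z.1 j :=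
      fun j => rfl
    have hw1 : w ∈ N (c (i + 1) * z) J n := by
      refine ⟨fun j hj => ?_, fun j hj hj' => ?_⟩
      · have : j = m - 1 := by omega
        rw [hwv, if_neg (by omega), if_pos this]
      · rw [hwv, if_neg (by omega), if_neg (by omega), mul_val, c_val, if_neg (by omega)]
        exact (max_eq_right bot_le).symm
    have hw2 : w ∈ N (c 0) J₀ n₀ := by
      refine ⟨fun j hj => ?_, fun j hj hj' => ?_⟩
      · rw [lev_c] at hj; omega
      · rw [hwv, if_pos (by omega), c_val, if_neg (by omega)]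
    exact Set.disjoint_left.1 hdis (hn₀ hw2) (hJn hw1)

end Pool.Agent.Lib.P22c7c2
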